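import Pool.Agent.H81.MV.NoSuitable

set_option autoImplicit false

namespace Pool.Agent.Results.MP_1c9ee6_al.NoSuitable

open Pool.H81.MV.NoSuitable

/-- **Main theorem.** There is a strongly topologically orderable gyrogroup `G` with a suitable
set and a subgyrogroup `H` of `G` without any suitable set. -/
theorem result : ∃ (G : Type) (_ : TopologicalSpace G) (Γ : Gyrogroup G),
    Γ.IsTopological ∧ Γ.IsStrong ∧ TopologicallyOrderable G ∧
    (∀ a b, Γ.op a b = Γ.op b a) ∧ (∀ a b c, Γ.gyr a b c = c) ∧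
    (∃ S, Γ.IsSuitable Set.univ S ∧ IsClosed S) ∧
    ∃ H : Set G, Γ.IsSub H ∧ IsClopen H ∧ ¬ ∃ S, Γ.IsSuitable H S :=
  Pool.H81.MV.NoSuitable.result

end Pool.Agent.Results.MP_1c9ee6_al.NoSuitable
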